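import Pool.Agent.H203R4.DF.Stmts

set_option autoImplicit false

namespace Pool.Agent.H368.DF

open Pool.Agent.H203R4.DF

universe u

section emb

variable {G : Type u} [Group G] (H : Subgroup G)

/-- The inclusion of the tuples of a subgroup. -/
def io : ∀ k, SS H k → SS G k
  | 0, x => x
  | k + 1, x => ((x.1 : G), io k x.2)

lemma io_succ (k : ℕ) (x : SS H (k + 1)) : io H (k + 1) x = (((x.1 : G), io H k x.2) : SS G (k + 1)) :=
  rfl

lemma io_inj (k : ℕ) : Function.Injective (io H k) := by
  induction k with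
  | zero => intro x y h; exact h
  | succ k ih =>
    intro x y h
    rw [io_succ, io_succ] at h
    have h1 : (x.1 : G) = y.1 := congrArg Prod.fst h
    have h2 : io H k x.2 = io H k y.2 := congrArg Prod.snd h
    exact Prod.ext (Subtype.ext h1) (ih h2)

lemma io_smul (k : ℕ) (h : H) (x : SS H k) : io H k (h • x) = (h : G) • io H k x := by
  induction k with
  | zero => rfl
  | succ k ih =>
    exact Prod.ext rfl (ih x.2)

/-- The entries of a tuple. -/
def ent : ∀ k, SS G k → Set G
  | 0, _ => ∅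
  | k + 1, x => insert x.1 (ent k x.2)

lemma ent_finite (k : ℕ) (x : SS G k) : (ent k x).Finite := by
  induction k with
  | zero => exact Set.finite_empty
  | succ k ih => exact (ih x.2).insert _

lemma ent_io (k : ℕ) (x : SS H k) : ent k (io H k x) ⊆ H := by
  induction k with
  | zero => exact Set.empty_subset _
  | succ k ih =>
    intro g hg
    rcases hg with rfl | hg
    · exact x.1.2
    · exact ih x.2 hg

lemma exists_io (k : ℕ) (y : SS G k) (h : ent k y ⊆ H) : ∃ x, io H k x = y := by
  induction k with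
  | zero => exact ⟨y, rfl⟩
  | succ k ih =>
    obtain ⟨x, hx⟩ := ih y.2 (fun g hg => h (Or.inr hg))
    refine ⟨((⟨y.1, h (Or.inl rfl)⟩, x) : SS H (k + 1)), ?_⟩
    exact Prod.ext rfl hx

/-- The induced map of `ℓ¹` spaces. -/
noncomputable def is (k : ℕ) : L (SS H k) →L[ℂ] L (SS G k) := ext fun x => dl (io H k x)

lemma is_dl (k : ℕ) (x : SS H k) : is H k (dl x) = dl (io H k x) :=
  ext_dl _ ⟨1, fun s => (norm_dl _).le⟩ x

lemma hasSum_is (k : ℕ) (f : L (SS H k)) (y : SS G k) :
    HasSum (fun s => f s • (dl (io H k s) : L (SS G k)) y) (is H k f y) :=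
  (hasSum_ext (fun x : SS H k => (dl (io H k x) : L (SS G k))) ⟨1, fun s => (norm_dl _).le⟩ f).mapL
    (lp.evalCLM ℂ (fun _ : SS G k => ℂ) 1 y)

lemma is_apply (k : ℕ) (f : L (SS H k)) (x : SS H k) : is H k f (io H k x) = f x := by
  refine (hasSum_is H k f (io H k x)).unique ?_
  have h3 := hasSum_single (f := fun s => f s • (dl (io H k s) : L (SS G k)) (io H k x)) x
    (fun t ht => by
      rw [dl_ne, smul_zero]
      intro h
      exact ht (io_inj H k h).symm)
  simpa [dl_self] using h3

lemma is_apply_zero (k : ℕ) (f : L (SS H k)) (y : SS G k) (hy : ∀ x, io H k x ≠ y) :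
    is H k f y = 0 := by
  refine (hasSum_is H k f y).unique ?_
  have : (fun s => f s • (dl (io H k s) : L (SS G k)) y) = fun _ => 0 := by
    funext s
    rw [dl_ne _ _ (fun h => hy s h.symm), smul_zero]
  rw [this]
  exact hasSum_zero

lemma is_inj (k : ℕ) : Function.Injective (is H k) := by
  intro f f' h
  ext x
  rw [← is_apply H k f x, ← is_apply H k f' x, h]

lemma is_rho (k : ℕ) (h : H) (f : L (SS H k)) : is H k (rho h f) = rho (h : G) (is H k f) := by
  have : (is H k).comp (rho h) = (rho (h : G)).comp (is H k) := by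
    refine clm_ext fun s => ?_
    rw [ContinuousLinearMap.comp_apply, ContinuousLinearMap.comp_apply, rho_dl, is_dl, is_dl,
      rho_dl, io_smul]
  exact DFunLike.congr_fun this f

lemma jn_dl (G : Type u) (k : ℕ) (g : G) (y : SS G k) :
    jn G k g (dl y) = dl ((g, y) : SS G (k + 1)) :=
  ext_dl _ ⟨1, fun s => (norm_dl _).le⟩ y

lemma is_jn (k : ℕ) (h : H) (f : L (SS H k)) :
    is H (k + 1) (jn H k h f) = jn G k (h : G) (is H k f) := by
  have : (is H (k + 1)).comp (jn H k h) = (jn G k (h : G)).comp (is H k) := by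
    refine clm_ext fun s => ?_
    rw [ContinuousLinearMap.comp_apply, ContinuousLinearMap.comp_apply, jn_dl, is_dl, jn_dl]
    exact is_dl H (k + 1) ((h, s) : SS H (k + 1))
  exact DFunLike.congr_fun this f

lemma norm_jn_le (G : Type u) (k : ℕ) (g : G) (f : L (SS G k)) : ‖jn G k g f‖ ≤ ‖f‖ := by
  have := norm_ext_apply_le (fun y : SS G k => (dl ((g, y) : SS G (k + 1)) : L (SS G (k + 1)))) 1
    (fun s => (norm_dl _).le) f
  rwa [one_mul] at this

lemma norm_bdv_le (G : Type u) (k : ℕ) (x : SS G (k + 1)) : ‖bdv G k x‖ ≤ k + 1 := by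
  induction k with
  | zero => simp [bdv, norm_dl]
  | succ k ih =>
    have h1 : bdv G (k + 1) x = dl x.2 - jn G k x.1 (bdv G k x.2) := rfl
    rw [h1]
    refine (norm_sub_le _ _).trans ?_
    rw [norm_dl]
    have h2 := norm_jn_le G k x.1 (bdv G k x.2)
    have h3 := ih x.2
    push_cast
    linarith

lemma bd_dl (G : Type u) (k : ℕ) (x : SS G (k + 1)) : bd G k (dl x) = bdv G k x :=
  ext_dl _ ⟨k + 1, fun s => norm_bdv_le G k s⟩ x

lemma is_bdv (k : ℕ) (x : SS H (k + 1)) : is H k (bdv H k x) = bdv G k (io H (k + 1) x) := by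
  induction k with
  | zero =>
    have h1 : bdv H 0 x = dl x.2 := rfl
    have h2 : bdv G 0 (io H 1 x) = dl (io H 0 x.2) := rfl
    rw [h1, h2, is_dl]
  | succ k ih =>
    have h1 : bdv H (k + 1) x = dl x.2 - jn H k x.1 (bdv H k x.2) := rfl
    have h2 : bdv G (k + 1) (io H (k + 2) x) =
      dl (io H (k + 1) x.2) - jn G k (x.1 : G) (bdv G k (io H (k + 1) x.2)) := rfl
    rw [h1, h2, map_sub, is_dl, is_jn, ih]

lemma is_bd (k : ℕ) (f : L (SS H (k + 1))) :
    is H k (bd H k f) = bd G k (is H (k + 1) f) := by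
  have : (is H k).comp (bd H k) = (bd G k).comp (is H (k + 1)) := by
    refine clm_ext fun s => ?_
    rw [ContinuousLinearMap.comp_apply, ContinuousLinearMap.comp_apply, bd_dl, is_dl, bd_dl,
      is_bdv]
  exact DFunLike.congr_fun this f

/-- The restriction. -/
noncomputable def rs (k : ℕ) (f : L (SS G k)) : L (SS H k) := mk fun x => f (io H k x)

lemma sum_rs (k : ℕ) (f : L (SS G k)) (F : Finset (SS H k)) :
    ∑ i ∈ F, ‖f (io H k i)‖ ≤ ‖f‖ := by
  classical
  have h := sum_norm_le f (F.map ⟨io H k, io_inj H k⟩)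
  rwa [Finset.sum_map] at h

lemma rs_apply (k : ℕ) (f : L (SS G k)) (x : SS H k) : rs H k f x = f (io H k x) :=
  mk_apply _ ‖f‖ (sum_rs H k f) x

lemma norm_rs_le (k : ℕ) (f : L (SS G k)) : ‖rs H k f‖ ≤ ‖f‖ := by
  refine norm_le_of_sum_le _ _ fun F => ?_
  simp only [rs_apply]
  exact sum_rs H k f F

lemma is_rs (k : ℕ) (f : L (SS G k)) (h : ∀ y, f y ≠ 0 → ent k y ⊆ H) : is H k (rs H k f) = f := by
  ext y
  by_cases hy : ∃ x, io H k x = y
  · obtain ⟨x, rfl⟩ := hy
    rw [is_apply, rs_apply]
  · push Not at hy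
    rw [is_apply_zero H k _ y hy]
    by_contra hne
    obtain ⟨x, hx⟩ := exists_io H k y (h y (Ne.symm hne))
    exact hy x hx

/-- If the supports of `p (dl (io x))` lie in the tuples of `H`, the splitting restricts. -/
theorem splits_of_closed (n : ℕ) (p : L (SS G (n + 1)) →L[ℂ] L (SS G (n + 1)))
    (hp1 : ∀ (g : G) f, p (rho g f) = rho g (p f)) (hp2 : ∀ f, p (bd G (n + 1) f) = 0)
    (hp3 : ∀ f, bd G n (p f) = bd G n f)
    (hH : ∀ (x : SS H (n + 1)) (y : SS G (n + 1)), p (dl (io H (n + 1) x)) y ≠ 0 →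
      ent (n + 1) y ⊆ H) : Splits H n := by
  have hb : ∀ x : SS H (n + 1), ‖rs H (n + 1) (p (dl (io H (n + 1) x)))‖ ≤ ‖p‖ := by
    intro x
    refine (norm_rs_le _ _ _).trans ((p.le_opNorm _).trans ?_)
    rw [norm_dl, mul_one]
  let q : L (SS H (n + 1)) →L[ℂ] L (SS H (n + 1)) :=
    ext fun x => rs H (n + 1) (p (dl (io H (n + 1) x)))
  have hq : ∀ f, is H (n + 1) (q f) = p (is H (n + 1) f) := by
    intro f
    have : (is H (n + 1)).comp q = p.comp (is H (n + 1)) := by
      refine clm_ext fun s => ?_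
      rw [ContinuousLinearMap.comp_apply, ContinuousLinearMap.comp_apply, ext_dl _ ⟨_, hb⟩,
        is_dl, is_rs H (n + 1) _ (hH s)]
    exact DFunLike.congr_fun this f
  refine ⟨q, fun g f => is_inj H _ ?_, fun f => is_inj H _ ?_, fun f => is_inj H _ ?_⟩
  · rw [hq, is_rho, hp1, is_rho, hq]
  · rw [hq, is_bd, hp2, map_zero]
  · rw [is_bd, hq, hp3, is_bd]

end emb

section build

variable {G : Type u} [Group G] (n : ℕ) (p : L (SS G (n + 1)) →L[ℂ] L (SS G (n + 1)))

/-- The entries of the tuples in the supports. -/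
def TT (H : Set G) : Set G :=
  {g | ∃ x : SS G (n + 1), ent (n + 1) x ⊆ H ∧ ∃ y, p (dl x) y ≠ 0 ∧ g ∈ ent (n + 1) y}

lemma countable_ent (k : ℕ) (H : Set G) (hH : H.Countable) : {x : SS G k | ent k x ⊆ H}.Countable := by
  induction k with
  | zero =>
    have : Countable (SS G 0) := (inferInstance : Countable PUnit)
    exact Set.to_countable _
  | succ k ih =>
    have h1 : {x : SS G (k + 1) | ent (k + 1) x ⊆ H} ⊆
        ((H ×ˢ {x : SS G k | ent k x ⊆ H} : Set (G × SS G k)) : Set (SS G (k + 1))) := by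
      intro x hx
      exact ⟨hx (Or.inl rfl), fun g hg => hx (Or.inr hg)⟩
    exact (hH.prod ih).mono h1

lemma countable_TT (H : Set G) (hH : H.Countable) : (TT n p H).Countable := by
  have h1 : TT n p H ⊆ ⋃ x ∈ {x : SS G (n + 1) | ent (n + 1) x ⊆ H},
      ⋃ y ∈ {y | p (dl x) y ≠ 0}, ent (n + 1) y := by
    rintro g ⟨x, hx, y, hy, hg⟩
    simp only [Set.mem_iUnion]
    exact ⟨x, hx, y, hy, hg⟩
  refine Set.Countable.mono h1 ?_
  refine (countable_ent (n + 1) H hH).biUnion fun x _ => ?_
  refine Set.Countable.biUnion ?_ fun y _ => (ent_finite _ y).countable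
  have h2 := (summable_norm (p (dl x))).countable_support
  refine h2.mono fun y hy => ?_
  simpa using hy

omit n p in
lemma countable_closure (S : Set G) (hS : S.Countable) : (Subgroup.closure S : Set G).Countable := by
  have h1 : Countable S := hS.to_subtype
  have h2 : Countable (FreeGroup S) :=
    (inferInstance : Countable (Quot (FreeGroup.Red.Step (α := S))))
  have h : (FreeGroup.lift (fun s : S => (s : G))).range = Subgroup.closure S := by
    rw [FreeGroup.range_lift_eq_closure, Subtype.range_coe]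
  rw [← h, MonoidHom.coe_range]
  exact Set.countable_range _

/-- The chain of subgroups. -/
noncomputable def HH (S : Set G) : ℕ → Subgroup G
  | 0 => Subgroup.closure S
  | j + 1 => Subgroup.closure ((HH S j : Set G) ∪ TT n p (HH S j))

lemma HH_succ (S : Set G) (j : ℕ) :
    HH n p S (j + 1) = Subgroup.closure ((HH n p S j : Set G) ∪ TT n p (HH n p S j)) := rfl

lemma HH_mono (S : Set G) : Monotone (HH n p S) := by
  refine monotone_nat_of_le_succ fun j => ?_
  rw [HH_succ]
  exact fun g hg => Subgroup.subset_closure (Or.inl hg)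

lemma HH_countable (S : Set G) (hS : S.Countable) (j : ℕ) : ((HH n p S j : Set G)).Countable := by
  induction j with
  | zero =>
    have : Countable S := hS.to_subtype
    exact countable_closure _ hS
  | succ j ih =>
    exact countable_closure _ (ih.union (countable_TT n p _ ih))

end build

theorem taskSub : TaskSub.{u} := by
  intro G _ _ n hs
  obtain ⟨p, hp1, hp2, hp3⟩ := hs
  obtain ⟨S, hSc, hSi⟩ : ∃ S : Set G, S.Countable ∧ S.Infinite := by
    have e := Infinite.natEmbedding G
    exact ⟨Set.range e, Set.countable_range _, Set.infinite_range_of_injective e.injective⟩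
  let H : Subgroup G := ⨆ j, HH n p S j
  have hdir : Directed (· ≤ ·) (HH n p S) := (HH_mono n p S).directed_le
  have hmem : ∀ g, g ∈ H ↔ ∃ j, g ∈ HH n p S j := fun g => Subgroup.mem_iSup_of_directed hdir
  have hset : (H : Set G) = ⋃ j, (HH n p S j : Set G) := by
    ext g
    rw [Set.mem_iUnion]
    exact hmem g
  have hc : (H : Set G).Countable := by
    rw [hset]
    exact Set.countable_iUnion fun j => HH_countable n p S hSc j
  refine ⟨H, hc.to_subtype, ?_, ?_⟩
  · have hsub : S ⊆ (H : Set G) := fun g hg => (hmem g).2 ⟨0, Subgroup.subset_closure hg⟩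
    exact (hSi.mono hsub).to_subtype
  · refine splits_of_closed H n p hp1 hp2 hp3 fun x y hy => ?_
    obtain ⟨j, hj⟩ : ∃ j, ent (n + 1) (io H (n + 1) x) ⊆ (HH n p S j : Set G) := by
      have h1 : ∀ F : Set G, F.Finite → F ⊆ H → ∃ j, F ⊆ (HH n p S j : Set G) := by
        intro F hF
        induction F, hF using Set.Finite.induction_on with
        | empty => intro _; exact ⟨0, Set.empty_subset _⟩
        | insert _ _ ih =>
          rename_i a F' _ _
          intro hF'
          obtain ⟨j1, h1⟩ := ih (fun g hg => hF' (Or.inr hg))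
          obtain ⟨j2, h2⟩ := (hmem a).1 (hF' (Or.inl rfl))
          refine ⟨max j1 j2, ?_⟩
          rintro g (rfl | hg)
          · exact HH_mono n p S (le_max_right _ _) h2
          · exact HH_mono n p S (le_max_left _ _) (h1 hg)
      exact h1 _ (ent_finite _ _) (ent_io H _ x)
    intro g hg
    refine (hmem g).2 ⟨j + 1, ?_⟩
    rw [HH_succ]
    exact Subgroup.subset_closure (Or.inr ⟨_, hj, y, hy, hg⟩)

end Pool.Agent.H368.DF
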